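import Pool.Agent.Helper77.AR.Inj

/-!
# The rational numbers embed in an asymptotically rigid mapping class group

There is a locally finite planar tree `A` whose asymptotically rigid mapping class group contains a
copy of `(ℚ, +)`.  This subgroup is abelian and is not a direct sum of cyclic groups.
-/

open Pool.Agent.Helper77.AR
open scoped DirectSum

namespace Pool.Agent.Results.MP_dd8834_al.RationalsEmbed

/-- The group `ℚ` is not a direct sum of cyclic groups. -/
theorem rat_not_sum {ι : Type} {C : ι → Type} [∀ i, AddCommGroup (C i)]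
    [∀ i, IsAddCyclic (C i)] (e : ℚ ≃+ ⨁ i, C i) : False := by
  classical
  have hz : ∀ i (g : C i), (∀ x : C i, x ∈ AddSubgroup.zmultiples g) → g = 0 := by
    intro i g hg
    set y : ⨁ i, C i := DirectSum.of C i g with hy
    set q : ℚ := e.symm y with hq
    set h : C i := (e (q / 2)) i with hh
    have h1 : h + h = g := by
      have h2 : e (q / 2) + e (q / 2) = y := by
        rw [← map_add, add_halves, hq, AddEquiv.apply_symm_apply]
      have h3 := congrArg (fun z : ⨁ i, C i => z i) h2
      simp only [DirectSum.add_apply] at h3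
      rw [hy, DirectSum.of_eq_same] at h3
      exact h3
    obtain ⟨n, hn⟩ := AddSubgroup.mem_zmultiples_iff.mp (hg h)
    have h4 : (2 * n - 1) • g = 0 := by
      rw [sub_smul, one_smul, mul_smul, hn, two_smul, h1, sub_self]
    have h5 : (2 * n - 1) • y = 0 := by
      rw [hy, ← map_zsmul, h4, map_zero]
    have h6 : (2 * n - 1) • q = 0 := by
      rw [hq, ← map_zsmul, h5, map_zero]
    have h7 : q = 0 := by
      rcases smul_eq_zero.mp h6 with h | h
      · omega
      · exact h
    have h8 : y = 0 := by
      have := congrArg e h7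
      rwa [hq, AddEquiv.apply_symm_apply, map_zero] at this
    have h9 := congrArg (fun z : ⨁ i, C i => z i) h8
    simp only [DirectSum.zero_apply] at h9
    rw [hy, DirectSum.of_eq_same] at h9
    exact h9
  have h1 : e 1 = 0 := by
    apply DFinsupp.ext
    intro i
    obtain ⟨g, hg⟩ := IsAddCyclic.exists_generator (α := C i)
    have h2 := hz i g hg
    obtain ⟨n, hn⟩ := AddSubgroup.mem_zmultiples_iff.mp (hg ((e 1) i))
    rw [← hn, h2, smul_zero]
    rfl
  have h2 : (1 : ℚ) = 0 := by
    apply e.injective
    rw [h1, map_zero]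
  exact one_ne_zero h2

/-- There are a locally finite planar tree with a rigid structure, `R`, and a subgroup `B` of the
asymptotically rigid mapping class group of `R` which is isomorphic to `(ℚ, +)`.  This abelian
subgroup is not isomorphic to a direct sum of cyclic groups. -/
theorem result :
    ∃ (R : RigidSurface) (B : Subgroup R.Mod), Nonempty (Additive B ≃+ ℚ) ∧
      (∀ x ∈ B, ∀ y ∈ B, x * y = y * x) ∧ ¬ IsSumOfCyclic B := by
  let e1 : Multiplicative ℚ ≃* γM.range := MonoidHom.ofInjective γM_injective
  let e2 : ℚ ≃+ Additive γM.range := (AddEquiv.additiveMultiplicative ℚ).symm.trans e1.toAdditive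
  refine ⟨RS, γM.range, ⟨e2.symm⟩, ?_, ?_⟩
  · rintro _ ⟨a, rfl⟩ _ ⟨b, rfl⟩
    rw [← map_mul, ← map_mul, mul_comm]
  · rintro ⟨ι, C, _, _, ⟨e⟩⟩
    exact rat_not_sum (e2.trans e)

end Pool.Agent.Results.MP_dd8834_al.RationalsEmbed
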